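import Mathlib

/-!
# Paths in the hexagonal lattice are simple curves
-/

set_option autoImplicit false

namespace Pool.Agent.H994.ON

/-- The vertices of the hexagonal lattice. -/
abbrev Vx : Type := ℤ × ℤ × Bool

/-- The position of a vertex. -/
noncomputable def emb (v : Vx) : ℂ :=
  ⟨√3 * ((v.1 : ℝ) + v.2.1 / 2), 3 / 2 * (v.2.1 : ℝ) + if v.2.2 then 1 else 0⟩

/-- Neighbours. -/
def Adj (u v : Vx) : Prop := ‖emb u - emb v‖ = 1

/-- The polygonal curve through the points `p 0, …, p m`. -/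
noncomputable def polygon (m : ℕ) (p : ℕ → ℂ) : C(unitInterval, ℂ) where
  toFun t := p 0 + ∑ k ∈ Finset.range m,
    ((max 0 (min 1 (m * (t : ℝ) - (k : ℝ))) : ℝ) : ℂ) * (p (k + 1) - p k)
  continuous_toFun := by fun_prop

theorem sum_clamp (p : ℕ → ℂ) (k : ℕ) (u : ℝ) (h0 : 0 ≤ u) (h1 : u ≤ 1) (r : ℕ) :
    p 0 + ∑ j ∈ Finset.range (k + 1 + r),
      ((max 0 (min 1 ((k : ℝ) + u - (j : ℝ))) : ℝ) : ℂ) * (p (j + 1) - p j) =
      (1 - (u : ℂ)) * p k + u * p (k + 1) := by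
  induction r with
  | zero =>
    rw [add_zero, Finset.sum_range_succ]
    have e1 : ∑ j ∈ Finset.range k,
        ((max 0 (min 1 ((k : ℝ) + u - (j : ℝ))) : ℝ) : ℂ) * (p (j + 1) - p j) =
        ∑ j ∈ Finset.range k, (p (j + 1) - p j) := by
      refine Finset.sum_congr rfl fun j hj => ?_
      have h2 : (j : ℝ) + 1 ≤ k := by exact_mod_cast Finset.mem_range.1 hj
      rw [min_eq_left (by linarith), max_eq_right zero_le_one]
      simp
    rw [e1, Finset.sum_range_sub]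
    have e2 : max 0 (min 1 ((k : ℝ) + u - (k : ℝ))) = u := by
      rw [add_sub_cancel_left, min_eq_right h1, max_eq_right h0]
    rw [e2]
    ring
  | succ r ih =>
    rw [← add_assoc, Finset.sum_range_succ, ← add_assoc, ih]
    have e2 : max 0 (min 1 ((k : ℝ) + u - ((k + 1 + r : ℕ) : ℝ))) = 0 := by
      apply max_eq_left
      refine (min_le_right _ _).trans ?_
      push_cast
      have : (0 : ℝ) ≤ r := Nat.cast_nonneg r
      linarith
    rw [e2]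
    simp

theorem polygon_apply {m : ℕ} {p : ℕ → ℂ} {k : ℕ} (hk : k < m) {u : ℝ} (h0 : 0 ≤ u) (h1 : u ≤ 1)
    {t : unitInterval} (ht : m * (t : ℝ) = k + u) :
    polygon m p t = (1 - (u : ℂ)) * p k + u * p (k + 1) := by
  obtain ⟨r, rfl⟩ : ∃ r, m = k + 1 + r := ⟨m - (k + 1), by omega⟩
  rw [← sum_clamp p k u h0 h1 r]
  change p 0 + ∑ j ∈ Finset.range (k + 1 + r), _ = _
  rw [ht]

theorem exists_index {m : ℕ} (hm : 1 ≤ m) (t : unitInterval) :
    ∃ (k : ℕ) (u : ℝ), k < m ∧ 0 ≤ u ∧ u ≤ 1 ∧ m * (t : ℝ) = k + u := by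
  have h0 := t.2.1
  have h1 := t.2.2
  have hm' : (1 : ℝ) ≤ m := by exact_mod_cast hm
  by_cases h : (t : ℝ) = 1
  · refine ⟨m - 1, 1, by omega, zero_le_one, le_rfl, ?_⟩
    rw [h, Nat.cast_sub hm]
    push_cast
    ring
  · have h2 : (t : ℝ) < 1 := lt_of_le_of_ne h1 h
    have h3 : 0 ≤ m * (t : ℝ) := by positivity
    refine ⟨⌊m * (t : ℝ)⌋₊, m * (t : ℝ) - ⌊m * (t : ℝ)⌋₊, ?_, ?_, ?_, by ring⟩
    · rw [Nat.floor_lt h3]
      nlinarith
    · have := Nat.floor_le h3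
      linarith
    · have := Nat.lt_floor_add_one (m * (t : ℝ))
      linarith

/-- the six possible edges: `p` is the end of type `false` -/
theorem adj_cases {u v : Vx} (h : Adj u v) :
    ∃ (a b : ℤ) (A B : ℤ), ((A = 0 ∧ B = 0) ∨ (A = 0 ∧ B = -1) ∨ (A = 1 ∧ B = -1)) ∧
      ((u = (a, b, false) ∧ v = (a + A, b + B, true)) ∨
        (v = (a, b, false) ∧ u = (a + A, b + B, true))) := by
  have key : ∀ A B : ℤ, A ^ 2 + A * B + B ^ 2 + B = 0 →
      ((A = 0 ∧ B = 0) ∨ (A = 0 ∧ B = -1) ∨ (A = 1 ∧ B = -1)) := by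
    intro A B hAB
    have h1 : B ≤ 0 := by nlinarith [sq_nonneg (2 * A + B)]
    have h2 : -1 ≤ B := by nlinarith [sq_nonneg (2 * A + B)]
    have h3 : B = 0 ∨ B = -1 := by omega
    rcases h3 with rfl | rfl
    · left
      refine ⟨?_, rfl⟩
      have : A ^ 2 = 0 := by linarith
      exact pow_eq_zero_iff (two_ne_zero) |>.1 this
    · right
      have : A * (A - 1) = 0 := by nlinarith
      rcases mul_eq_zero.1 this with h | h
      · left; exact ⟨h, rfl⟩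
      · right; exact ⟨by omega, rfl⟩
  have h3 : (√3 : ℝ) ^ 2 = 3 := Real.sq_sqrt (by norm_num)
  obtain ⟨a, b, s⟩ := u
  obtain ⟨a', b', s'⟩ := v
  unfold Adj at h
  have h2 : ‖emb (a, b, s) - emb (a', b', s')‖ ^ 2 = 1 := by rw [h]; norm_num
  rw [← Complex.normSq_eq_norm_sq, Complex.normSq_apply] at h2
  cases s <;> cases s'
  · exfalso
    simp only [emb, Complex.sub_re, Complex.sub_im] at h2
    have h4 : 3 * (((a - a') ^ 2 + (a - a') * (b - b') + (b - b') ^ 2 : ℤ) : ℝ) = 1 := by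
      push_cast
      simp at h2
      nlinarith
    have h5 : 3 * ((a - a') ^ 2 + (a - a') * (b - b') + (b - b') ^ 2) = 1 := by exact_mod_cast h4
    omega
  · refine ⟨a, b, a' - a, b' - b, key _ _ ?_, Or.inl ⟨rfl, by simp⟩⟩
    simp only [emb, Complex.sub_re, Complex.sub_im] at h2
    have h4 : (((a' - a) ^ 2 + (a' - a) * (b' - b) + (b' - b) ^ 2 + (b' - b) : ℤ) : ℝ) = 0 := by
      push_cast
      simp at h2
      nlinarith
    exact_mod_cast h4
  · refine ⟨a', b', a - a', b - b', key _ _ ?_, Or.inr ⟨rfl, by simp⟩⟩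
    simp only [emb, Complex.sub_re, Complex.sub_im] at h2
    have h4 : (((a - a') ^ 2 + (a - a') * (b - b') + (b - b') ^ 2 + (b - b') : ℤ) : ℝ) = 0 := by
      push_cast
      simp at h2
      nlinarith
    exact_mod_cast h4
  · exfalso
    simp only [emb, Complex.sub_re, Complex.sub_im] at h2
    have h4 : 3 * (((a - a') ^ 2 + (a - a') * (b - b') + (b - b') ^ 2 : ℤ) : ℝ) = 1 := by
      push_cast
      simp at h2
      nlinarith
    have h5 : 3 * ((a - a') ^ 2 + (a - a') * (b - b') + (b - b') ^ 2) = 1 := by exact_mod_cast h4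
    omega

theorem decode {a b A B a' b' A' B' : ℤ} {t t' : ℝ}
    (hA : (A = 0 ∧ B = 0) ∨ (A = 0 ∧ B = -1) ∨ (A = 1 ∧ B = -1))
    (hA' : (A' = 0 ∧ B' = 0) ∨ (A' = 0 ∧ B' = -1) ∨ (A' = 1 ∧ B' = -1))
    (h0 : 0 ≤ t) (h1 : t ≤ 1) (h0' : 0 ≤ t') (h1' : t' ≤ 1)
    (hX : 3 * (a : ℝ) + t * (3 * A - 1) = 3 * a' + t' * (3 * A' - 1))
    (hY : 3 * (b : ℝ) + t * (3 * B + 2) = 3 * b' + t' * (3 * B' + 2)) :
    (a = a' ∧ b = b' ∧ A = A' ∧ B = B' ∧ t = t') ∨ (t = 0 ∧ t' = 0 ∧ a = a' ∧ b = b') ∨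
      (t = 1 ∧ t' = 1 ∧ a + A = a' + A' ∧ b + B = b' + B') := by
  obtain ⟨i, rfl⟩ : ∃ i, a = a' + i := ⟨a - a', by omega⟩
  obtain ⟨j, rfl⟩ : ∃ j, b = b' + j := ⟨b - b', by omega⟩
  push_cast at hX hY
  have bd : -1 ≤ i ∧ i ≤ 1 ∧ -1 ≤ j ∧ j ≤ 1 := by
    have g : (-1 : ℝ) ≤ i ∧ (i : ℝ) ≤ 1 ∧ (-1 : ℝ) ≤ j ∧ (j : ℝ) ≤ 1 := by
      rcases hA with ⟨rfl, rfl⟩ | ⟨rfl, rfl⟩ | ⟨rfl, rfl⟩ <;>
      rcases hA' with ⟨rfl, rfl⟩ | ⟨rfl, rfl⟩ | ⟨rfl, rfl⟩ <;>
      push_cast at hX hY <;> refine ⟨?_, ?_, ?_, ?_⟩ <;> linarith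
    obtain ⟨g1, g2, g3, g4⟩ := g
    exact ⟨by exact_mod_cast g1, by exact_mod_cast g2, by exact_mod_cast g3, by exact_mod_cast g4⟩
  obtain ⟨b1, b2, b3, b4⟩ := bd
  rcases hA with ⟨rfl, rfl⟩ | ⟨rfl, rfl⟩ | ⟨rfl, rfl⟩ <;>
  rcases hA' with ⟨rfl, rfl⟩ | ⟨rfl, rfl⟩ | ⟨rfl, rfl⟩ <;>
  interval_cases i <;> interval_cases j <;> push_cast at hX hY <;>
  first
  | (exfalso; linarith)
  | (left; exact ⟨by omega, by omega, rfl, rfl, by linarith⟩)
  | (right; left; exact ⟨by linarith, by linarith, by omega, by omega⟩)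
  | (right; right; exact ⟨by linarith, by linarith, by omega, by omega⟩)

theorem coords (v : Vx) : √3 * (emb v).re - (emb v).im = 3 * (v.1 : ℝ) - (if v.2.2 then 1 else 0) ∧
    2 * (emb v).im = 3 * (v.2.1 : ℝ) + 2 * (if v.2.2 then 1 else 0) := by
  have h3 : (√3 : ℝ) * √3 = 3 := Real.mul_self_sqrt (by norm_num)
  unfold emb
  constructor
  · simp only
    linear_combination ((v.1 : ℝ) + v.2.1 / 2) * h3
  · simp only
    ring

theorem eq_of_lin {p q p' q' : Vx} {u u' : ℝ}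
    (he : (1 - (u : ℂ)) * emb p + u * emb q = (1 - (u' : ℂ)) * emb p' + u' * emb q') (L : ℂ → ℝ)
    (hL : ∀ (x : ℝ) (z w : ℂ), L ((1 - (x : ℂ)) * z + x * w) = (1 - x) * L z + x * L w) :
    (1 - u) * L (emb p) + u * L (emb q) = (1 - u') * L (emb p') + u' * L (emb q') := by
  rw [← hL, ← hL, he]

theorem edge_inter {p q p' q' : Vx} (h : Adj p q) (h' : Adj p' q') {u u' : ℝ}
    (h0 : 0 ≤ u) (h1 : u ≤ 1) (h0' : 0 ≤ u') (h1' : u' ≤ 1)
    (he : (1 - (u : ℂ)) * emb p + u * emb q = (1 - (u' : ℂ)) * emb p' + u' * emb q') :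
    (p = p' ∧ q = q' ∧ u = u') ∨ (p = q' ∧ q = p') ∨ (u = 0 ∧ u' = 0 ∧ p = p') ∨
      (u = 0 ∧ u' = 1 ∧ p = q') ∨ (u = 1 ∧ u' = 0 ∧ q = p') ∨ (u = 1 ∧ u' = 1 ∧ q = q') := by
  have hX := eq_of_lin he (fun z => √3 * z.re - z.im) (by
    intro x z w
    simp
    ring)
  have hY := eq_of_lin he (fun z => 2 * z.im) (by
    intro x z w
    simp
    ring)
  simp only [(coords _).1, (coords _).2] at hX hY
  obtain ⟨a, b, A, B, hA, hpq⟩ := adj_cases h
  obtain ⟨a', b', A', B', hA', hpq'⟩ := adj_cases h'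
  rcases hpq with ⟨rfl, rfl⟩ | ⟨rfl, rfl⟩ <;> rcases hpq' with ⟨rfl, rfl⟩ | ⟨rfl, rfl⟩
  · simp only [if_true, Bool.false_eq_true, if_false] at hX hY
    push_cast at hX hY
    rcases decode (a := a) (b := b) (a' := a') (b' := b') (t := u) (t' := u') hA hA' h0 h1 h0' h1' (by linarith) (by linarith) with
      ⟨rfl, rfl, rfl, rfl, rfl⟩ | ⟨rfl, rfl, rfl, rfl⟩ | ⟨rfl, rfl, e1, e2⟩
    · exact Or.inl ⟨rfl, rfl, rfl⟩
    · exact Or.inr (Or.inr (Or.inl ⟨rfl, rfl, rfl⟩))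
    · exact Or.inr (Or.inr (Or.inr (Or.inr (Or.inr ⟨rfl, rfl, by rw [e1, e2]⟩))))
  · simp only [if_true, Bool.false_eq_true, if_false] at hX hY
    push_cast at hX hY
    rcases decode (a := a) (b := b) (a' := a') (b' := b') (t := u) (t' := 1 - u') hA hA' h0 h1 (by linarith) (by linarith) (by linarith)
      (by linarith) with
      ⟨rfl, rfl, rfl, rfl, e3⟩ | ⟨rfl, e3, rfl, rfl⟩ | ⟨rfl, e3, e1, e2⟩
    · exact Or.inr (Or.inl ⟨rfl, rfl⟩)
    · exact Or.inr (Or.inr (Or.inr (Or.inl ⟨rfl, by linarith, rfl⟩)))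
    · exact Or.inr (Or.inr (Or.inr (Or.inr (Or.inl ⟨rfl, by linarith, by rw [e1, e2]⟩))))
  · simp only [if_true, Bool.false_eq_true, if_false] at hX hY
    push_cast at hX hY
    rcases decode (a := a) (b := b) (a' := a') (b' := b') (t := 1 - u) (t' := u') hA hA' (by linarith) (by linarith) h0' h1' (by linarith)
      (by linarith) with
      ⟨rfl, rfl, rfl, rfl, e3⟩ | ⟨e3, rfl, rfl, rfl⟩ | ⟨e3, rfl, e1, e2⟩
    · exact Or.inr (Or.inl ⟨rfl, rfl⟩)
    · exact Or.inr (Or.inr (Or.inr (Or.inr (Or.inl ⟨by linarith, rfl, rfl⟩))))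
    · exact Or.inr (Or.inr (Or.inr (Or.inl ⟨by linarith, rfl, by rw [e1, e2]⟩)))
  · simp only [if_true, Bool.false_eq_true, if_false] at hX hY
    push_cast at hX hY
    rcases decode (a := a) (b := b) (a' := a') (b' := b') (t := 1 - u) (t' := 1 - u') hA hA' (by linarith) (by linarith) (by linarith)
      (by linarith) (by linarith) (by linarith) with
      ⟨rfl, rfl, rfl, rfl, e3⟩ | ⟨e3, e4, rfl, rfl⟩ | ⟨e3, e4, e1, e2⟩
    · exact Or.inl ⟨rfl, rfl, by linarith⟩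
    · exact Or.inr (Or.inr (Or.inr (Or.inr (Or.inr ⟨by linarith, by linarith, rfl⟩))))
    · exact Or.inr (Or.inr (Or.inl ⟨by linarith, by linarith, by rw [e1, e2]⟩))

/-- The curve of a self-avoiding path of the hexagonal lattice is simple. -/
theorem polygon_injective {m : ℕ} (hm : 1 ≤ m) (w : ℕ → Vx) (hw : ∀ i < m, Adj (w i) (w (i + 1)))
    (hi : ∀ i ≤ m, ∀ j ≤ m, w i = w j → i = j) {δ : ℝ} (hδ : δ ≠ 0) :
    Function.Injective (polygon m fun i => δ * emb (w i)) := by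
  intro s t hst
  obtain ⟨k, u, hk, h0, h1, e⟩ := exists_index hm s
  obtain ⟨l, v, hl, g0, g1, e'⟩ := exists_index hm t
  rw [polygon_apply hk h0 h1 e, polygon_apply hl g0 g1 e'] at hst
  have h2 : (1 - (u : ℂ)) * emb (w k) + u * emb (w (k + 1)) =
      (1 - (v : ℂ)) * emb (w l) + v * emb (w (l + 1)) := by
    have hδ' : (δ : ℂ) ≠ 0 := by exact_mod_cast hδ
    apply mul_left_cancel₀ hδ'
    linear_combination hst
  have hm0 : (0 : ℝ) < m := by exact_mod_cast hm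
  have key : (k : ℝ) + u = l + v := by
    rcases edge_inter (hw k hk) (hw l hl) h0 h1 g0 g1 h2 with
      ⟨e1, -, rfl⟩ | ⟨e1, e2⟩ | ⟨rfl, rfl, e1⟩ | ⟨rfl, rfl, e1⟩ | ⟨rfl, rfl, e1⟩ | ⟨rfl, rfl, e1⟩
    · rw [hi k (by omega) l (by omega) e1]
    · have := hi _ (by omega) _ (by omega) e1
      have := hi _ (by omega) _ (by omega) e2
      omega
    · rw [hi _ (by omega) _ (by omega) e1]
    · rw [hi _ (by omega) _ (by omega) e1]
      push_cast
      ring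
    · rw [← hi _ (by omega) _ (by omega) e1]
      push_cast
      ring
    · have := hi _ (by omega) _ (by omega) e1
      have h5 : k = l := by omega
      rw [h5]
  apply Subtype.ext
  have h6 : m * (s : ℝ) = m * (t : ℝ) := by rw [e, e', key]
  exact mul_left_cancel₀ hm0.ne' h6

end Pool.Agent.H994.ON
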