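import Mathlib

/-!
# Graphs in which two vertices have degree 1 and the others have degree 0 or 2
-/

set_option autoImplicit false
set_option linter.all false

namespace Pool.Agent.H994.ON

open Classical in
theorem exists_path {V : Type} (G : SimpleGraph V) (hfin : {v | ∃ u, G.Adj v u}.Finite) {a b : V}
    (ha : {u | G.Adj a u}.ncard = 1)
    (h : ∀ v, v ≠ a → v ≠ b → {u | G.Adj v u}.ncard = 0 ∨ {u | G.Adj v u}.ncard = 2) :
    G.Reachable a b := by
  have hC : {v | G.Reachable a v}.Finite := by
    refine (hfin.insert a).subset ?_
    intro v hv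
    rcases eq_or_ne v a with rfl | hne
    · exact Set.mem_insert _ _
    · right
      obtain ⟨p⟩ := (show G.Reachable a v from hv).symm
      cases p with
      | nil => exact absurd rfl hne
      | cons h _ => exact ⟨_, h⟩
  let C : Set V := {v | G.Reachable a v}
  have : Fintype C := hC.fintype
  let H : SimpleGraph C := G.induce C
  have hdeg : ∀ x : C, H.degree x = {u | G.Adj x.1 u}.ncard := by
    intro x
    rw [← SimpleGraph.card_neighborFinset_eq_degree, ← Set.ncard_coe_finset]
    rw [← Set.ncard_image_of_injective _ Subtype.val_injective]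
    congr 1
    ext u
    simp only [Set.mem_image, Finset.mem_coe, SimpleGraph.mem_neighborFinset, Set.mem_setOf_eq]
    constructor
    · rintro ⟨y, hy, rfl⟩
      exact hy
    · intro hu
      exact ⟨⟨u, x.2.trans (SimpleGraph.Adj.reachable hu)⟩, hu, rfl⟩
  obtain ⟨w, hw, hodd⟩ := H.exists_ne_odd_degree_of_exists_odd_degree
    ⟨a, SimpleGraph.Reachable.refl a⟩ (by rw [hdeg, ha]; exact odd_one)
  rw [hdeg] at hodd
  have hwb : w.1 = b := by
    by_contra hne
    have hwa : w.1 ≠ a := fun e => hw (Subtype.ext e)
    rcases h w.1 hwa hne with h0 | h0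
    · rw [h0] at hodd; exact absurd hodd (by decide)
    · rw [h0] at hodd; exact absurd hodd (by decide)
  rw [← hwb]
  exact w.2

theorem two_le {V : Type} (G : SimpleGraph V) (hfin : ∀ v, {u | G.Adj v u}.Finite) {v x y z : V}
    (h : {u | G.Adj v u}.ncard ≤ 2) (hx : G.Adj v x) (hy : G.Adj v y) (hz : G.Adj v z)
    (hxy : y ≠ x) (hxz : z ≠ x) : y = z := by
  by_contra hyz
  have h1 : ({x, y, z} : Set V) ⊆ {u | G.Adj v u} := by
    rintro u (rfl | rfl | rfl)
    · exact hx
    · exact hy
    · exact hz
  have h2 := Set.ncard_le_ncard h1 (hfin v)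
  have h3 : ({x, y, z} : Set V).ncard = 3 := by
    rw [Set.ncard_eq_three]
    exact ⟨x, y, z, hxy.symm, hxz.symm, hyz, rfl⟩
  omega

theorem path_unique {V : Type} (G : SimpleGraph V) (hfin : ∀ v, {u | G.Adj v u}.Finite) {a b : V}
    (ha : {u | G.Adj a u}.ncard = 1) (h : ∀ v, {u | G.Adj v u}.ncard ≤ 2)
    (p q : G.Path a b) : p = q := by
  have key : ∀ i, i ≤ p.1.length → i ≤ q.1.length → ∀ j ≤ i, p.1.getVert j = q.1.getVert j := by
    intro i
    induction i with
    | zero =>
      intro _ _ j hj
      obtain rfl : j = 0 := by omega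
      simp
    | succ i ih =>
      intro h1 h2 j hj
      rcases Nat.lt_or_ge j (i + 1) with h3 | h3
      · exact ih (by omega) (by omega) j (by omega)
      · obtain rfl : j = i + 1 := by omega
        have e := ih (by omega) (by omega) i le_rfl
        have p1 := p.1.adj_getVert_succ (i := i) (by omega)
        have q1 := q.1.adj_getVert_succ (i := i) (by omega)
        rw [← e] at q1
        rcases Nat.eq_zero_or_pos i with rfl | hi
        · obtain ⟨c, hc⟩ := Set.ncard_eq_one.1 ha
          rw [SimpleGraph.Walk.getVert_zero] at p1 q1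
          have m1 : p.1.getVert (0 + 1) ∈ ({c} : Set V) := by rw [← hc]; exact p1
          have m2 : q.1.getVert (0 + 1) ∈ ({c} : Set V) := by rw [← hc]; exact q1
          rw [Set.mem_singleton_iff.1 m1, Set.mem_singleton_iff.1 m2]
        · obtain ⟨k, rfl⟩ : ∃ k, i = k + 1 := ⟨i - 1, by omega⟩
          have e' := ih (by omega) (by omega) k (by omega)
          have p0 := (p.1.adj_getVert_succ (i := k) (by omega)).symm
          refine two_le G hfin (h _) p0 p1 q1 ?_ ?_
          · intro e2
            have := p.2.getVert_injOn (by simp; omega) (by simp; omega) e2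
            omega
          · intro e2
            rw [e'] at e2
            have := q.2.getVert_injOn (by simp; omega) (by simp; omega) e2
            omega
  have hlen : p.1.length = q.1.length := by
    rcases lt_trichotomy p.1.length q.1.length with hl | hl | hl
    · have e := key p.1.length le_rfl hl.le _ le_rfl
      rw [SimpleGraph.Walk.getVert_length] at e
      have e2 : q.1.getVert q.1.length = q.1.getVert p.1.length :=
        (SimpleGraph.Walk.getVert_length _).trans e
      have := q.2.getVert_injOn (by simp) (by simp; omega) e2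
      omega
    · exact hl
    · have e := key q.1.length hl.le le_rfl _ le_rfl
      have e2 : p.1.getVert q.1.length = p.1.getVert p.1.length :=
        (e.trans (SimpleGraph.Walk.getVert_length _)).trans
          (SimpleGraph.Walk.getVert_length _).symm
      have := p.2.getVert_injOn (by simp; omega) (by simp) e2
      omega
  apply Subtype.ext
  apply SimpleGraph.Walk.ext_getVert
  intro k
  rcases le_total k p.1.length with h1 | h1
  · exact key k h1 (by omega) k le_rfl
  · rw [SimpleGraph.Walk.getVert_of_length_le _ h1, SimpleGraph.Walk.getVert_of_length_le _ (by omega)]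

end Pool.Agent.H994.ON
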