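import Pool.Agent.H994.ON.Sq

/-!
# The interface of the rectangle
-/

set_option autoImplicit false
set_option linter.all false

namespace Pool.Agent.H994.ON

/-- the corner `d` lies on the interface from `c` -/
def Reach (S : Set (Sym2 (ℤ × ℤ))) (c d : Corner) : Prop := ∃ m, (next S)^[m] c = d

theorem Reach.trans {S : Set (Sym2 (ℤ × ℤ))} {c d e : Corner} (h : Reach S c d)
    (h' : Reach S d e) : Reach S c e := by
  obtain ⟨m, rfl⟩ := h
  obtain ⟨n, rfl⟩ := h'
  exact ⟨n + m, Function.iterate_add_apply _ _ _ _⟩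

theorem Reach.refl (S : Set (Sym2 (ℤ × ℤ))) (c : Corner) : Reach S c c := ⟨0, rfl⟩

theorem reach_closed {S : Set (Sym2 (ℤ × ℤ))} {v : ℤ × ℤ} {k : Fin 4}
    (h : s(v, v + dir (k + 1)) ∉ S) : Reach S (v, k) (v, k + 1) := by
  refine ⟨1, ?_⟩
  rw [Function.iterate_one]
  unfold next
  rw [if_neg h]

theorem reach_open {S : Set (Sym2 (ℤ × ℤ))} {v : ℤ × ℤ} {k : Fin 4}
    (h : s(v, v + dir (k + 1)) ∈ S) : Reach S (v, k) (v + dir (k + 1), k - 1) := by
  refine ⟨1, ?_⟩
  rw [Function.iterate_one]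
  unfold next
  rw [if_pos h]

/-- In a finite set of open edges the interfaces are periodic. -/
theorem periodic {S : Set (Sym2 (ℤ × ℤ))} {V : Set (ℤ × ℤ)} (hV : V.Finite)
    (hS : ∀ v k, s(v, v + dir k) ∈ S → v + dir k ∈ V) {a : Corner} (ha : a.1 ∈ V) :
    ∃ r, 0 < r ∧ (next S)^[r] a = a := by
  have hmaps : ∀ i, ((next S)^[i] a).1 ∈ V := by
    intro i
    induction i with
    | zero => exact ha
    | succ i ih =>
      rw [Function.iterate_succ_apply']
      unfold next
      split_ifs with h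
      · exact hS _ _ h
      · exact ih
  have : Finite V := hV
  obtain ⟨i, j, hij, h⟩ := Finite.exists_ne_map_eq_of_infinite
    (fun i : ℕ => (⟨⟨((next S)^[i] a).1, hmaps i⟩, ((next S)^[i] a).2⟩ : V × Fin 4))
  have h1 : (next S)^[i] a = (next S)^[j] a := by
    simp only [Prod.mk.injEq, Subtype.mk.injEq] at h
    exact Prod.ext h.1 h.2
  have key : ∀ i j : ℕ, i < j → (next S)^[i] a = (next S)^[j] a →
      ∃ r, 0 < r ∧ (next S)^[r] a = a := by
    intro i j hij h
    refine ⟨j - i, by omega, ?_⟩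
    apply (next_injective S).iterate i
    rw [← Function.iterate_add_apply, h]
    congr 1
    omega
  rcases lt_or_gt_of_ne hij with h2 | h2
  · exact key i j h2 h1
  · exact key j i h2 h1.symm

theorem reach_symm {S : Set (Sym2 (ℤ × ℤ))} {V : Set (ℤ × ℤ)} (hV : V.Finite)
    (hS : ∀ v k, s(v, v + dir k) ∈ S → v + dir k ∈ V) {a b : Corner} (ha : a.1 ∈ V)
    (h : Reach S b a) : Reach S a b := by
  obtain ⟨r, hr, h1⟩ := periodic hV hS ha
  obtain ⟨s, hs⟩ := h
  have h2 : ∀ k : ℕ, (next S)^[r * k] a = a := by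
    intro k
    induction k with
    | zero => rfl
    | succ k ih =>
      rw [mul_add, mul_one, Function.iterate_add_apply, h1, ih]
  refine ⟨r * s - s, ?_⟩
  apply (next_injective S).iterate s
  rw [← Function.iterate_add_apply, hs]
  have h3 : s + (r * s - s) = r * s := by
    have : s ≤ r * s := Nat.le_mul_of_pos_left s hr
    omega
  rw [h3, h2]

/-- the rectangle -/
def inRect (m n : ℕ) (v : ℤ × ℤ) : Prop := 0 ≤ v.1 ∧ v.1 ≤ m ∧ 0 ≤ v.2 ∧ v.2 ≤ n

/-- the edges in the left and the lower side -/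
def sides (m n : ℕ) : Set (Sym2 (ℤ × ℤ)) :=
  {e | ∃ v k, e = s(v, v + dir k) ∧ inRect m n v ∧ inRect m n (v + dir k) ∧
    ((v.1 = 0 ∧ (v + dir k).1 = 0) ∨ (v.2 = 0 ∧ (v + dir k).2 = 0))}

/-- the edges inside -/
def inner (m n : ℕ) : Set (Sym2 (ℤ × ℤ)) :=
  {e | (∃ v k, e = s(v, v + dir k) ∧ inRect m n v ∧ inRect m n (v + dir k)) ∧ e ∉ sides m n}

theorem inRect_finite (m n : ℕ) : {v | inRect m n v}.Finite := by
  refine ((Set.finite_Icc (0 : ℤ) m).prod (Set.finite_Icc (0 : ℤ) n)).subset ?_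
  rintro ⟨x, y⟩ ⟨h1, h2, h3, h4⟩
  exact ⟨⟨h1, h2⟩, ⟨h3, h4⟩⟩

theorem inner_finite (m n : ℕ) : (inner m n).Finite := by
  have h : (((fun p : (ℤ × ℤ) × Fin 4 => s(p.1, p.1 + dir p.2)) ''
      ({v | inRect m n v} ×ˢ (Set.univ : Set (Fin 4)))) : Set (Sym2 (ℤ × ℤ))).Finite :=
    ((inRect_finite m n).prod Set.finite_univ).image _
  refine h.subset ?_
  rintro e ⟨⟨v, k, rfl, h1, h2⟩, h3⟩
  exact ⟨(v, k), ⟨h1, Set.mem_univ _⟩, rfl⟩

theorem rect {m n : ℕ} {S : Set (Sym2 (ℤ × ℤ))} (hS : S ⊆ inner m n ∪ sides m n)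
    (hs : sides m n ⊆ S) : Reach S ((m, 0), 0) ((0, n), 0) := by
  have hin : ∀ v k, s(v, v + dir k) ∈ S → inRect m n v ∧ inRect m n (v + dir k) := by
    intro v k h
    have key : ∀ u l, s(v, v + dir k) = s(u, u + dir l) → inRect m n u → inRect m n (u + dir l) →
        inRect m n v ∧ inRect m n (v + dir k) := by
      intro u l he h1 h2
      rcases Sym2.eq_iff.1 he with ⟨e1, e2⟩ | ⟨e1, e2⟩
      · rw [e2, e1]; exact ⟨h1, h2⟩
      · rw [e2, e1]; exact ⟨h2, h1⟩
    rcases hS h with ⟨⟨u, l, he, h1, h2⟩, -⟩ | ⟨u, l, he, h1, h2, -⟩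
    · exact key u l he h1 h2
    · exact key u l he h1 h2
  refine reach_symm (V := {v | inRect m n v}) (inRect_finite m n) (fun v k h => (hin v k h).2)
    (show inRect m n ((m : ℤ), 0) from ⟨by simp, by simp, by simp, by simp⟩) ?_
  -- the way along the outside of the wired sides
  have s1 : Reach S ((0, n), 0) ((0, n), 1) := by
    have := reach_closed (S := S) (v := (0, n)) (k := 0) (by
      intro h
      have := (hin _ _ h).2
      simp [dir, inRect] at this)
    exact this
  have s2 : ∀ j : ℕ, j ≤ n → Reach S ((0, (j : ℤ)), 1) ((0, 0), 1) := by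
    intro j
    induction j with
    | zero => intro _; exact Reach.refl _ _
    | succ j ih =>
      intro hj
      have t1 : Reach S ((0, ((j + 1 : ℕ) : ℤ)), 1) ((0, ((j + 1 : ℕ) : ℤ)), 2) := by
        have := reach_closed (S := S) (v := (0, ((j + 1 : ℕ) : ℤ))) (k := 1) (by
          intro h
          have := (hin _ _ h).2
          simp [dir, inRect] at this)
        exact this
      have t2 : Reach S ((0, ((j + 1 : ℕ) : ℤ)), 2) ((0, (j : ℤ)), 1) := by
        have := reach_open (S := S) (v := (0, ((j + 1 : ℕ) : ℤ))) (k := 2) (by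
          apply hs
          refine ⟨_, _, rfl, ?_, ?_, ?_⟩
          · refine ⟨?_, ?_, ?_, ?_⟩ <;> simp <;> omega
          · refine ⟨?_, ?_, ?_, ?_⟩ <;> simp [dir] <;> omega
          · left; simp [dir])
        have e : (((0, ((j + 1 : ℕ) : ℤ)) + dir (2 + 1), 2 - 1) : Corner) = ((0, (j : ℤ)), 1) := by
          simp [dir]
        rwa [e] at this
      exact (t1.trans t2).trans (ih (by omega))
  have s3 : Reach S ((0, 0), 1) ((0, 0), 2) := by
    have := reach_closed (S := S) (v := (0, 0)) (k := 1) (by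
      intro h
      have := (hin _ _ h).2
      simp [dir, inRect] at this)
    exact this
  have s4 : Reach S ((0, 0), 2) ((0, 0), 3) := by
    have := reach_closed (S := S) (v := (0, 0)) (k := 2) (by
      intro h
      have := (hin _ _ h).2
      simp [dir, inRect] at this)
    exact this
  have s5 : ∀ i : ℕ, i ≤ m → Reach S ((0, 0), 3) (((i : ℤ), 0), 3) := by
    intro i
    induction i with
    | zero => intro _; exact Reach.refl _ _
    | succ i ih =>
      intro hi
      have t1 : Reach S (((i : ℤ), 0), 3) ((((i + 1 : ℕ) : ℤ), 0), 2) := by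
        have := reach_open (S := S) (v := ((i : ℤ), 0)) (k := 3) (by
          apply hs
          refine ⟨_, _, rfl, ?_, ?_, ?_⟩
          · refine ⟨?_, ?_, ?_, ?_⟩ <;> simp <;> omega
          · refine ⟨?_, ?_, ?_, ?_⟩ <;> simp [dir] <;> omega
          · right; simp [dir])
        have e : ((((i : ℤ), 0) + dir (3 + 1), 3 - 1) : Corner) =
            ((((i + 1 : ℕ) : ℤ), 0), 2) := by
          simp [dir]
        rwa [e] at this
      have t2 : Reach S ((((i + 1 : ℕ) : ℤ), 0), 2) ((((i + 1 : ℕ) : ℤ), 0), 3) := by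
        have := reach_closed (S := S) (v := (((i + 1 : ℕ) : ℤ), 0)) (k := 2) (by
          intro h
          have := (hin _ _ h).2
          simp [dir, inRect] at this)
        exact this
      exact ((ih (by omega)).trans t1).trans t2
  have s6 : Reach S (((m : ℤ), 0), 3) (((m : ℤ), 0), 0) := by
    have := reach_closed (S := S) (v := ((m : ℤ), 0)) (k := 3) (by
      intro h
      have := (hin _ _ h).2
      simp [dir, inRect] at this)
    exact this
  exact ((((s1.trans (s2 n le_rfl)).trans s3).trans s4).trans (s5 m le_rfl)).trans s6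

end Pool.Agent.H994.ON
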