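import Pool.Agent.Results.MP_46f0ca_pr.NoGaussianPieces

/-!
# Limits in law, up to reparametrisation, of random simple curves
-/

set_option autoImplicit false

open Filter Topology MeasureTheory ProbabilityTheory

namespace Pool.Agent.H994.ON

open Pool.Agent.Results.MP_46f0ca_pr.NoGaussianPieces (LimitsOfSimpleCurves)

/-- The curve `γ` with the time changed by the increasing bijection `τ` of `[0, 1]`. -/
noncomputable def reparam (τ : unitInterval ≃o unitInterval) (γ : C(unitInterval, ℂ)) :
    C(unitInterval, ℂ) where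
  toFun t := γ (τ t)
  continuous_toFun := γ.continuous.comp τ.continuous

theorem infDist_reparam (τ : unitInterval ≃o unitInterval) (γ : C(unitInterval, ℂ)) :
    Metric.infDist (reparam τ γ) LimitsOfSimpleCurves = Metric.infDist γ LimitsOfSimpleCurves := by
  have h1 : ∀ (σ : unitInterval ≃o unitInterval) (γ γ' : C(unitInterval, ℂ)),
      dist (reparam σ γ) (reparam σ γ') ≤ dist γ γ' := by
    intro σ γ γ'
    rw [ContinuousMap.dist_le dist_nonneg]
    intro t
    exact ContinuousMap.dist_apply_le_dist (σ t)
  have h2 : ∀ (σ : unitInterval ≃o unitInterval) (γ : C(unitInterval, ℂ)),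
      reparam σ (reparam σ.symm γ) = γ := by
    intro σ γ
    ext t
    change γ (σ.symm (σ t)) = γ t
    rw [σ.symm_apply_apply]
  have h3 : ∀ (σ : unitInterval ≃o unitInterval) (γ : C(unitInterval, ℂ)),
      Metric.infDist (reparam σ γ) LimitsOfSimpleCurves ≤
        Metric.infDist γ LimitsOfSimpleCurves := by
    intro σ γ
    unfold LimitsOfSimpleCurves
    rw [Metric.infDist_closure, Metric.infDist_closure]
    have hne : {γ : C(unitInterval, ℂ) | Function.Injective γ}.Nonempty :=
      ⟨(⟨fun x : unitInterval => ((x : ℝ) : ℂ), by fun_prop⟩ : C(unitInterval, ℂ)), by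
        intro x y hxy
        exact Subtype.ext (Complex.ofReal_injective hxy)⟩
    rw [Metric.le_infDist hne]
    intro γ' hγ'
    refine (Metric.infDist_le_dist_of_mem (y := reparam σ γ') ?_).trans (h1 σ γ γ')
    intro x y hxy
    exact σ.injective (hγ' hxy)
  apply le_antisymm (h3 τ γ)
  calc Metric.infDist γ LimitsOfSimpleCurves
      = Metric.infDist (reparam τ.symm (reparam τ γ)) LimitsOfSimpleCurves := by
        have := h2 τ.symm γ
        rw [OrderIso.symm_symm] at this
        rw [this]
    _ ≤ _ := h3 _ _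

theorem carried [MeasurableSpace C(unitInterval, ℂ)] [BorelSpace C(unitInterval, ℂ)]
    (ν : Measure C(unitInterval, ℂ)) [IsProbabilityMeasure ν]
    (hν : ∀ f : BoundedContinuousFunction C(unitInterval, ℂ) ℝ, (∀ τ γ, f (reparam τ γ) = f γ) →
      (∀ γ : C(unitInterval, ℂ), Function.Injective γ → f γ = 0) → ∫ γ, f γ ∂ν = 0) :
    ν LimitsOfSimpleCurvesᶜ = 0 := by
  have hne : LimitsOfSimpleCurves.Nonempty :=
    ⟨_, subset_closure (show (⟨fun x : unitInterval => ((x : ℝ) : ℂ), by fun_prop⟩ :
      C(unitInterval, ℂ)) ∈ {γ : C(unitInterval, ℂ) | Function.Injective γ} from by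
        intro x y hxy
        exact Subtype.ext (Complex.ofReal_injective hxy))⟩
  have hc : Continuous fun γ : C(unitInterval, ℂ) =>
      min 1 (Metric.infDist γ LimitsOfSimpleCurves) := by
    have := Metric.continuous_infDist_pt LimitsOfSimpleCurves
    fun_prop
  let f : BoundedContinuousFunction C(unitInterval, ℂ) ℝ :=
    BoundedContinuousFunction.ofNormedAddCommGroup _ hc 1 (fun γ => by
      have h0 : 0 ≤ Metric.infDist γ LimitsOfSimpleCurves := Metric.infDist_nonneg
      rw [Real.norm_eq_abs, abs_of_nonneg (le_min zero_le_one h0)]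
      exact min_le_left _ _)
  have hf : ∀ γ, f γ = min 1 (Metric.infDist γ LimitsOfSimpleCurves) := fun γ => rfl
  have hf0 : ∀ γ, 0 ≤ f γ := fun γ => by
    rw [hf]
    exact le_min zero_le_one Metric.infDist_nonneg
  have h2 := hν f (fun τ γ => by rw [hf, hf, infDist_reparam]) (fun γ hγ => by
    have hmem : γ ∈ LimitsOfSimpleCurves := subset_closure hγ
    rw [hf, Metric.infDist_zero_of_mem hmem]
    simp)
  have h3 := (integral_eq_zero_iff_of_nonneg (μ := ν) (f := fun γ => f γ) hf0 (f.integrable ν)).1 h2
  refine measure_eq_zero_iff_ae_notMem.2 ?_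
  filter_upwards [h3] with γ hγ
  intro hmem
  apply hmem
  have h4 : min 1 (Metric.infDist γ LimitsOfSimpleCurves) = 0 := hγ
  have h5 : Metric.infDist γ LimitsOfSimpleCurves = 0 := by
    rcases min_choice (1 : ℝ) (Metric.infDist γ LimitsOfSimpleCurves) with h | h
    · rw [h] at h4; norm_num at h4
    · rw [h] at h4; exact h4
  exact (isClosed_closure.mem_iff_infDist_zero hne).2 h5

end Pool.Agent.H994.ON
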