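import Pool.Agent.H994.ON.Geo

/-!
# Interfaces of bond configurations on the square lattice are simple curves
-/

set_option autoImplicit false
set_option linter.all false

namespace Pool.Agent.H994.ON

/-- The possible intersections of two edges. -/
def Inter {V : Type} (emb : V → ℂ) (p q p' q' : V) : Prop :=
  ∀ u u' : ℝ, 0 ≤ u → u ≤ 1 → 0 ≤ u' → u' ≤ 1 →
    (1 - (u : ℂ)) * emb p + u * emb q = (1 - (u' : ℂ)) * emb p' + u' * emb q' →
    (p = p' ∧ q = q' ∧ u = u') ∨ (p = q' ∧ q = p') ∨ (u = 0 ∧ u' = 0 ∧ p = p') ∨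
      (u = 0 ∧ u' = 1 ∧ p = q') ∨ (u = 1 ∧ u' = 0 ∧ q = p') ∨ (u = 1 ∧ u' = 1 ∧ q = q')

theorem polygon_injective' {V : Type} (emb : V → ℂ) {m : ℕ} (hm : 1 ≤ m) (w : ℕ → V)
    (hw : ∀ i < m, ∀ j < m, Inter emb (w i) (w (i + 1)) (w j) (w (j + 1)))
    (hi : ∀ i ≤ m, ∀ j ≤ m, w i = w j → i = j) {δ : ℝ} (hδ : δ ≠ 0) :
    Function.Injective (polygon m fun i => δ * emb (w i)) := by
  intro s t hst
  obtain ⟨k, u, hk, h0, h1, e⟩ := exists_index hm s
  obtain ⟨l, v, hl, g0, g1, e'⟩ := exists_index hm t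
  rw [polygon_apply hk h0 h1 e, polygon_apply hl g0 g1 e'] at hst
  have h2 : (1 - (u : ℂ)) * emb (w k) + u * emb (w (k + 1)) =
      (1 - (v : ℂ)) * emb (w l) + v * emb (w (l + 1)) := by
    have hδ' : (δ : ℂ) ≠ 0 := by exact_mod_cast hδ
    apply mul_left_cancel₀ hδ'
    linear_combination hst
  have hm0 : (0 : ℝ) < m := by exact_mod_cast hm
  have key : (k : ℝ) + u = l + v := by
    rcases hw k hk l hl u v h0 h1 g0 g1 h2 with
      ⟨e1, -, rfl⟩ | ⟨e1, e2⟩ | ⟨rfl, rfl, e1⟩ | ⟨rfl, rfl, e1⟩ | ⟨rfl, rfl, e1⟩ | ⟨rfl, rfl, e1⟩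
    · rw [hi k (by omega) l (by omega) e1]
    · have := hi _ (by omega) _ (by omega) e1
      have := hi _ (by omega) _ (by omega) e2
      omega
    · rw [hi _ (by omega) _ (by omega) e1]
    · rw [hi _ (by omega) _ (by omega) e1]
      push_cast
      ring
    · rw [← hi _ (by omega) _ (by omega) e1]
      push_cast
      ring
    · have := hi _ (by omega) _ (by omega) e1
      have h5 : k = l := by omega
      rw [h5]
  apply Subtype.ext
  have h6 : m * (s : ℝ) = m * (t : ℝ) := by rw [e, e', key]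
  exact mul_left_cancel₀ hm0.ne' h6

/-- two edges of the square lattice, oriented to the right or up -/
theorem decodeZ {a b A B a' b' A' B' : ℤ} {t t' : ℝ}
    (hA : (A = 1 ∧ B = 0) ∨ (A = 0 ∧ B = 1)) (hA' : (A' = 1 ∧ B' = 0) ∨ (A' = 0 ∧ B' = 1))
    (h0 : 0 ≤ t) (h1 : t ≤ 1) (h0' : 0 ≤ t') (h1' : t' ≤ 1)
    (hX : (a : ℝ) + t * A = a' + t' * A') (hY : (b : ℝ) + t * B = b' + t' * B') :
    (a = a' ∧ b = b' ∧ A = A' ∧ B = B' ∧ t = t') ∨ (t = 0 ∧ t' = 0 ∧ a = a' ∧ b = b') ∨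
      (t = 1 ∧ t' = 1 ∧ a + A = a' + A' ∧ b + B = b' + B') ∨
      (t = 0 ∧ t' = 1 ∧ a = a' + A' ∧ b = b' + B') ∨
      (t = 1 ∧ t' = 0 ∧ a + A = a' ∧ b + B = b') := by
  obtain ⟨i, rfl⟩ : ∃ i, a = a' + i := ⟨a - a', by omega⟩
  obtain ⟨j, rfl⟩ : ∃ j, b = b' + j := ⟨b - b', by omega⟩
  push_cast at hX hY
  have bd : -1 ≤ i ∧ i ≤ 1 ∧ -1 ≤ j ∧ j ≤ 1 := by
    have g : (-1 : ℝ) ≤ i ∧ (i : ℝ) ≤ 1 ∧ (-1 : ℝ) ≤ j ∧ (j : ℝ) ≤ 1 := by
      rcases hA with ⟨rfl, rfl⟩ | ⟨rfl, rfl⟩ <;>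
      rcases hA' with ⟨rfl, rfl⟩ | ⟨rfl, rfl⟩ <;>
      push_cast at hX hY <;> refine ⟨?_, ?_, ?_, ?_⟩ <;> linarith
    obtain ⟨g1, g2, g3, g4⟩ := g
    exact ⟨by exact_mod_cast g1, by exact_mod_cast g2, by exact_mod_cast g3, by exact_mod_cast g4⟩
  obtain ⟨b1, b2, b3, b4⟩ := bd
  rcases hA with ⟨rfl, rfl⟩ | ⟨rfl, rfl⟩ <;>
  rcases hA' with ⟨rfl, rfl⟩ | ⟨rfl, rfl⟩ <;>
  interval_cases i <;> interval_cases j <;> push_cast at hX hY <;>
  first
  | (exfalso; linarith)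
  | (left; exact ⟨by omega, by omega, rfl, rfl, by linarith⟩)
  | (right; left; exact ⟨by linarith, by linarith, by omega, by omega⟩)
  | (right; right; left; exact ⟨by linarith, by linarith, by omega, by omega⟩)
  | (right; right; right; left; exact ⟨by linarith, by linarith, by omega, by omega⟩)
  | (right; right; right; right; exact ⟨by linarith, by linarith, by omega, by omega⟩)

/-- a unit step of the square lattice -/
def Unit {V : Type} (gx gy : V → ℤ) (p q : V) : Prop :=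
  ∃ (a b A B : ℤ), ((A = 1 ∧ B = 0) ∨ (A = 0 ∧ B = 1)) ∧
    ((gx p = a ∧ gy p = b ∧ gx q = a + A ∧ gy q = b + B) ∨
      (gx q = a ∧ gy q = b ∧ gx p = a + A ∧ gy p = b + B))

theorem inter_unit {V : Type} (emb : V → ℂ) (gx gy : V → ℤ)
    (hinj : ∀ p q, gx p = gx q → gy p = gy q → p = q)
    (hx : ∀ p, 2 * (emb p).re - 1 / 2 = gx p) (hy : ∀ p, 2 * (emb p).im - 1 / 2 = gy p)
    {p q p' q' : V} (h : Unit gx gy p q) (h' : Unit gx gy p' q') : Inter emb p q p' q' := by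
  intro u u' h0 h1 h0' h1' he
  have hX : (1 - u) * (gx p : ℝ) + u * gx q = (1 - u') * gx p' + u' * gx q' := by
    rw [← hx, ← hx, ← hx, ← hx]
    have := congrArg Complex.re he
    simp at this
    linear_combination 2 * this
  have hY : (1 - u) * (gy p : ℝ) + u * gy q = (1 - u') * gy p' + u' * gy q' := by
    rw [← hy, ← hy, ← hy, ← hy]
    have := congrArg Complex.im he
    simp at this
    linear_combination 2 * this
  obtain ⟨a, b, A, B, hA, hpq⟩ := h
  obtain ⟨a', b', A', B', hA', hpq'⟩ := h'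
  rcases hpq with ⟨e1, e2, e3, e4⟩ | ⟨e1, e2, e3, e4⟩ <;>
  rcases hpq' with ⟨g1, g2, g3, g4⟩ | ⟨g1, g2, g3, g4⟩ <;>
  rw [e1, e3, g1, g3] at hX <;> rw [e2, e4, g2, g4] at hY <;> push_cast at hX hY
  · rcases decodeZ (a := a) (b := b) (a' := a') (b' := b') (t := u) (t' := u') hA hA' h0 h1 h0' h1'
      (by linarith) (by linarith) with
      ⟨f1, f2, f3, f4, f5⟩ | ⟨f1, f2, f3, f4⟩ | ⟨f1, f2, f3, f4⟩ | ⟨f1, f2, f3, f4⟩ |
        ⟨f1, f2, f3, f4⟩
    · exact Or.inl ⟨hinj _ _ (by omega) (by omega), hinj _ _ (by omega) (by omega), f5⟩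
    · exact Or.inr (Or.inr (Or.inl ⟨f1, f2, hinj _ _ (by omega) (by omega)⟩))
    · exact Or.inr (Or.inr (Or.inr (Or.inr (Or.inr ⟨f1, f2, hinj _ _ (by omega) (by omega)⟩))))
    · exact Or.inr (Or.inr (Or.inr (Or.inl ⟨f1, f2, hinj _ _ (by omega) (by omega)⟩)))
    · exact Or.inr (Or.inr (Or.inr (Or.inr (Or.inl ⟨f1, f2, hinj _ _ (by omega) (by omega)⟩))))
  · rcases decodeZ (a := a) (b := b) (a' := a') (b' := b') (t := u) (t' := 1 - u') hA hA' h0 h1
      (by linarith) (by linarith) (by linarith) (by linarith) with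
      ⟨f1, f2, f3, f4, f5⟩ | ⟨f1, f2, f3, f4⟩ | ⟨f1, f2, f3, f4⟩ | ⟨f1, f2, f3, f4⟩ |
        ⟨f1, f2, f3, f4⟩
    · exact Or.inr (Or.inl ⟨hinj _ _ (by omega) (by omega), hinj _ _ (by omega) (by omega)⟩)
    · exact Or.inr (Or.inr (Or.inr (Or.inl ⟨f1, by linarith, hinj _ _ (by omega) (by omega)⟩)))
    · exact Or.inr (Or.inr (Or.inr (Or.inr (Or.inl
        ⟨f1, by linarith, hinj _ _ (by omega) (by omega)⟩))))
    · exact Or.inr (Or.inr (Or.inl ⟨f1, by linarith, hinj _ _ (by omega) (by omega)⟩))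
    · exact Or.inr (Or.inr (Or.inr (Or.inr (Or.inr
        ⟨f1, by linarith, hinj _ _ (by omega) (by omega)⟩))))
  · rcases decodeZ (a := a) (b := b) (a' := a') (b' := b') (t := 1 - u) (t' := u') hA hA'
      (by linarith) (by linarith) h0' h1' (by linarith) (by linarith) with
      ⟨f1, f2, f3, f4, f5⟩ | ⟨f1, f2, f3, f4⟩ | ⟨f1, f2, f3, f4⟩ | ⟨f1, f2, f3, f4⟩ |
        ⟨f1, f2, f3, f4⟩
    · exact Or.inr (Or.inl ⟨hinj _ _ (by omega) (by omega), hinj _ _ (by omega) (by omega)⟩)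
    · exact Or.inr (Or.inr (Or.inr (Or.inr (Or.inl
        ⟨by linarith, f2, hinj _ _ (by omega) (by omega)⟩))))
    · exact Or.inr (Or.inr (Or.inr (Or.inl ⟨by linarith, f2, hinj _ _ (by omega) (by omega)⟩)))
    · exact Or.inr (Or.inr (Or.inr (Or.inr (Or.inr
        ⟨by linarith, f2, hinj _ _ (by omega) (by omega)⟩))))
    · exact Or.inr (Or.inr (Or.inl ⟨by linarith, f2, hinj _ _ (by omega) (by omega)⟩))
  · rcases decodeZ (a := a) (b := b) (a' := a') (b' := b') (t := 1 - u) (t' := 1 - u') hA hA'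
      (by linarith) (by linarith) (by linarith) (by linarith) (by linarith) (by linarith) with
      ⟨f1, f2, f3, f4, f5⟩ | ⟨f1, f2, f3, f4⟩ | ⟨f1, f2, f3, f4⟩ | ⟨f1, f2, f3, f4⟩ |
        ⟨f1, f2, f3, f4⟩
    · exact Or.inl ⟨hinj _ _ (by omega) (by omega), hinj _ _ (by omega) (by omega), by linarith⟩
    · exact Or.inr (Or.inr (Or.inr (Or.inr (Or.inr
        ⟨by linarith, by linarith, hinj _ _ (by omega) (by omega)⟩))))
    · exact Or.inr (Or.inr (Or.inl
        ⟨by linarith, by linarith, hinj _ _ (by omega) (by omega)⟩))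
    · exact Or.inr (Or.inr (Or.inr (Or.inr (Or.inl
        ⟨by linarith, by linarith, hinj _ _ (by omega) (by omega)⟩))))
    · exact Or.inr (Or.inr (Or.inr (Or.inl
        ⟨by linarith, by linarith, hinj _ _ (by omega) (by omega)⟩)))

/-- The four directions. -/
def dir : Fin 4 → ℤ × ℤ := ![(1, 0), (0, 1), (-1, 0), (0, -1)]

/-- The corners. -/
abbrev Corner : Type := (ℤ × ℤ) × Fin 4

/-- The position of a corner. -/
noncomputable def pos (c : Corner) : ℂ :=
  (c.1.1 : ℂ) + (c.1.2 : ℂ) * Complex.I + (1 + Complex.I) / 4 * Complex.I ^ (c.2 : ℕ)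

open Classical in
/-- The next corner. -/
noncomputable def next (S : Set (Sym2 (ℤ × ℤ))) (c : Corner) : Corner :=
  if s(c.1, c.1 + dir (c.2 + 1)) ∈ S then (c.1 + dir (c.2 + 1), c.2 - 1) else (c.1, c.2 + 1)

open Classical in
/-- The previous corner. -/
noncomputable def prev (S : Set (Sym2 (ℤ × ℤ))) (c : Corner) : Corner :=
  if s(c.1, c.1 + dir c.2) ∈ S then (c.1 + dir c.2, c.2 + 1) else (c.1, c.2 - 1)

theorem dir_add (k : Fin 4) : dir (k + 1) + dir (k - 1) = 0 := by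
  fin_cases k <;> decide

theorem prev_next (S : Set (Sym2 (ℤ × ℤ))) (c : Corner) : prev S (next S c) = c := by
  obtain ⟨p, k⟩ := c
  unfold next
  by_cases h : s(p, p + dir (k + 1)) ∈ S
  · simp only [h, if_true]
    have e : p + dir (k + 1) + dir (k - 1) = p := by rw [add_assoc, dir_add, add_zero]
    unfold prev
    rw [if_pos (by
      change s(p + dir (k + 1), p + dir (k + 1) + dir (k - 1)) ∈ S
      rw [e, Sym2.eq_swap]
      exact h)]
    change ((p + dir (k + 1) + dir (k - 1), k - 1 + 1) : Corner) = (p, k)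
    rw [e]
    simp
  · simp only [h, if_false]
    unfold prev
    simp only
    rw [if_neg h]
    simp

theorem next_injective (S : Set (Sym2 (ℤ × ℤ))) : Function.Injective (next S) :=
  Function.LeftInverse.injective (prev_next S)

/-- integer coordinates of a corner -/
def gx (c : Corner) : ℤ := 2 * c.1.1 - (![0, 1, 1, 0] : Fin 4 → ℤ) c.2

/-- integer coordinates of a corner -/
def gy (c : Corner) : ℤ := 2 * c.1.2 - (![0, 0, 1, 1] : Fin 4 → ℤ) c.2

theorem pos_x (c : Corner) : 2 * (pos c).re - 1 / 2 = gx c := by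
  obtain ⟨⟨a, b⟩, k⟩ := c
  unfold pos gx
  fin_cases k <;> simp [pow_succ] <;> ring

theorem pos_y (c : Corner) : 2 * (pos c).im - 1 / 2 = gy c := by
  obtain ⟨⟨a, b⟩, k⟩ := c
  unfold pos gy
  fin_cases k <;> simp [pow_succ] <;> ring

theorem g_inj (c d : Corner) (h1 : gx c = gx d) (h2 : gy c = gy d) : c = d := by
  obtain ⟨⟨a, b⟩, k⟩ := c
  obtain ⟨⟨a', b'⟩, k'⟩ := d
  unfold gx at h1
  unfold gy at h2
  fin_cases k <;> fin_cases k' <;> simp at h1 h2 ⊢ <;> omega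

theorem unit_next (S : Set (Sym2 (ℤ × ℤ))) (c : Corner) : Unit gx gy c (next S c) := by
  obtain ⟨⟨a, b⟩, k⟩ := c
  unfold next
  split_ifs with h
  · fin_cases k
    · exact ⟨2 * a, 2 * b, 0, 1, by omega, Or.inl (by simp [gx, gy, dir] <;> omega)⟩
    · exact ⟨2 * a - 2, 2 * b, 1, 0, by omega, Or.inr (by simp [gx, gy, dir] <;> omega)⟩
    · exact ⟨2 * a - 1, 2 * b - 2, 0, 1, by omega, Or.inr (by simp [gx, gy, dir] <;> omega)⟩
    · exact ⟨2 * a, 2 * b - 1, 1, 0, by omega, Or.inl (by simp [gx, gy, dir] <;> omega)⟩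
  · fin_cases k
    · exact ⟨2 * a - 1, 2 * b, 1, 0, by omega, Or.inr (by simp [gx, gy, dir] <;> omega)⟩
    · exact ⟨2 * a - 1, 2 * b - 1, 0, 1, by omega, Or.inr (by simp [gx, gy, dir] <;> omega)⟩
    · exact ⟨2 * a - 1, 2 * b - 1, 1, 0, by omega, Or.inl (by simp [gx, gy, dir] <;> omega)⟩
    · exact ⟨2 * a, 2 * b - 1, 0, 1, by omega, Or.inl (by simp [gx, gy, dir] <;> omega)⟩

/-- The interface is a simple curve. -/
theorem interface_injective (S : Set (Sym2 (ℤ × ℤ))) (a b : Corner) (hab : a ≠ b)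
    (hit : ∃ m, (next S)^[m] a = b) {δ : ℝ} (hδ : δ ≠ 0) :
    Function.Injective (polygon (sInf {m | (next S)^[m] a = b})
      fun i => δ * pos ((next S)^[i] a)) := by
  obtain ⟨m, hm⟩ : ∃ m, m = sInf {m | (next S)^[m] a = b} := ⟨_, rfl⟩
  have hmem : (next S)^[m] a = b := by
    rw [hm]
    exact Nat.sInf_mem (s := {m | (next S)^[m] a = b}) hit
  have hmin : ∀ i, (next S)^[i] a = b → m ≤ i := by
    intro i hi
    rw [hm]
    exact Nat.sInf_le hi
  rw [← hm]
  refine polygon_injective' pos ?_ (fun i => (next S)^[i] a) ?_ ?_ hδ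
  · by_contra h
    apply hab
    have h0 : m = 0 := by omega
    rw [h0] at hmem
    exact hmem
  · intro i _ j _
    refine inter_unit pos gx gy g_inj pos_x pos_y ?_ ?_
    · simp only [Function.iterate_succ_apply']
      exact unit_next S _
    · simp only [Function.iterate_succ_apply']
      exact unit_next S _
  · have key : ∀ i j : ℕ, i < j → j ≤ m → (next S)^[i] a ≠ (next S)^[j] a := by
      intro i j hij hj h
      have h1 : a = (next S)^[j - i] a := by
        apply (next_injective S).iterate i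
        rw [← Function.iterate_add_apply, h]
        congr 1
        omega
      have h2 : (next S)^[m - (j - i)] a = b := by
        have h3 : (next S)^[m - (j - i)] ((next S)^[j - i] a) = b := by
          rw [← Function.iterate_add_apply, ← hmem]
          congr 1
          omega
        rwa [← h1] at h3
      have := hmin _ h2
      omega
    intro i hi j hj h
    by_contra hne
    rcases lt_or_gt_of_ne hne with h1 | h1
    · exact key i j h1 hj h
    · exact key j i h1 hi h.symm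

end Pool.Agent.H994.ON
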